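import Pool.Agent.H18.HIT.Targets

/-!
Row CAN: finiteness of the totally invariant hypersurfaces (Cantat's argument).
-/

set_option autoImplicit false

open MvPolynomial
open Pool.Agent.H12.ZD (pmap v O Res DenseOrbit NoInv)
open Pool.Agent.H18.HIT

namespace Pool.Agent.H80.HIT

lemma trdeg_frac (N : ℕ) (k : Type) [Field k] :
    Algebra.trdeg k (FractionRing (MvPolynomial (Fin N) k)) = N := by
  have h : Algebra.IsAlgebraic (MvPolynomial (Fin N) k)
      (FractionRing (MvPolynomial (Fin N) k)) := by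
    rw [IsFractionRing.comap_isAlgebraic_iff (K := FractionRing (MvPolynomial (Fin N) k))]
    infer_instance
  rw [← trdeg_add_eq k (MvPolynomial (Fin N) k), MvPolynomial.trdeg_of_isDomain, trdeg_eq_zero]
  simp

lemma exists_ker {τ : Type} [Fintype τ] (M r : ℕ) (h : Fintype.card τ + r ≤ M)
    (f : (Fin M → ℤ) →ₗ[ℤ] (τ → ℤ)) :
    ∃ b : Fin r → Fin M → ℤ, LinearIndependent ℤ b ∧ ∀ l, f (b l) = 0 := by
  have h1 : Module.finrank ℤ (LinearMap.range f) + Module.finrank ℤ (LinearMap.ker f) = M := by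
    have h2 := Submodule.finrank_quotient_add_finrank (LinearMap.ker f)
    have h3 : Module.finrank ℤ ((Fin M → ℤ) ⧸ LinearMap.ker f) =
        Module.finrank ℤ (LinearMap.range f) := LinearEquiv.finrank_eq f.quotKerEquivRange
    rw [h3] at h2
    simpa using h2
  have h2 : Module.finrank ℤ (LinearMap.range f) ≤ Fintype.card τ := by
    have := Submodule.finrank_le (LinearMap.range f)
    simpa using this
  have h3 : r ≤ Module.finrank ℤ (LinearMap.ker f) := by omega
  have B := Module.finBasis ℤ (LinearMap.ker f)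
  refine ⟨fun l => (B (Fin.castLE h3 l) : Fin M → ℤ), ?_, fun l => (B _).2⟩
  have h4 := B.linearIndependent.comp (Fin.castLE h3) (Fin.castLE_injective h3)
  exact h4.map' (LinearMap.ker f).subtype (Submodule.ker_subtype _)

lemma factor_form {A : Type} [CommRing A] [IsDomain A] [UniqueFactorizationMonoid A]
    [DecidableEq A] (S : Finset A) (B₀ : A)
    (hS : ∀ Y : A, Irreducible Y → Y ∣ B₀ → ∃ y ∈ S, Associated Y y) (Z : A) :
    Z ≠ 0 → (∀ Y : A, Irreducible Y → Y ∣ Z → Y ∣ B₀) →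
    ∃ m : A → ℕ, Associated Z (∏ y ∈ S, y ^ m y) := by
  induction Z using WfDvdMonoid.induction_on_irreducible with
  | zero => exact fun h => absurd rfl h
  | unit u hu =>
    intro _ _
    exact ⟨fun _ => 0, by simpa using associated_one_iff_isUnit.2 hu⟩
  | mul a i ha hi ih =>
    intro _ hY
    obtain ⟨m, hm⟩ := ih ha fun Y h1 h2 => hY Y h1 (Dvd.dvd.mul_left h2 i)
    obtain ⟨y, hyS, hy⟩ := hS i hi (hY i hi (Dvd.intro _ rfl))
    refine ⟨fun x => m x + if y = x then 1 else 0, ?_⟩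
    have h3 : ∏ x ∈ S, x ^ (m x + if y = x then 1 else 0) = y * ∏ x ∈ S, x ^ m x := by
      simp_rw [pow_add]
      rw [Finset.prod_mul_distrib, Finset.prod_pow_boole, if_pos hyS, mul_comm]
    rw [h3]
    exact hy.mul_mul hm

section zp

variable {K : Type} [Field K]

lemma zpow_sum {ι : Type} (s : Finset ι) (x : K) (hx : x ≠ 0) (a : ι → ℤ) :
    ∏ i ∈ s, x ^ a i = x ^ (∑ i ∈ s, a i) := by
  classical
  induction s using Finset.induction_on with
  | empty => simp
  | insert j s hj ih => rw [Finset.prod_insert hj, Finset.sum_insert hj, zpow_add₀ hx, ih]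

/-- products of powers -/
noncomputable def PP {M : ℕ} (w : Fin M → K) (n : Fin M → ℤ) : K := ∏ i, w i ^ n i

lemma PP_ne {M : ℕ} {w : Fin M → K} (hw : ∀ i, w i ≠ 0) (n : Fin M → ℤ) : PP w n ≠ 0 :=
  Finset.prod_ne_zero_iff.2 fun i _ => zpow_ne_zero _ (hw i)

lemma PP_add {M : ℕ} {w : Fin M → K} (hw : ∀ i, w i ≠ 0) (n n' : Fin M → ℤ) :
    PP w (n + n') = PP w n * PP w n' := by
  unfold PP
  rw [← Finset.prod_mul_distrib]
  exact Finset.prod_congr rfl fun i _ => zpow_add₀ (hw i) _ _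

lemma PP_sub {M : ℕ} {w : Fin M → K} (hw : ∀ i, w i ≠ 0) (n n' : Fin M → ℤ) :
    PP w (n - n') = PP w n / PP w n' := by
  rw [eq_div_iff (PP_ne hw n'), ← PP_add hw, sub_add_cancel]

lemma PP_zero {M : ℕ} (w : Fin M → K) : PP w 0 = 1 := by
  simp [PP]

lemma PP_nsmul {M : ℕ} (w : Fin M → K) (n : Fin M → ℤ) (e : ℕ) :
    PP w ((e : ℤ) • n) = PP w n ^ e := by
  unfold PP
  rw [← Finset.prod_pow]
  refine Finset.prod_congr rfl fun i _ => ?_
  rw [Pi.smul_apply, smul_eq_mul, mul_comm, zpow_mul, zpow_natCast]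

lemma PP_sum {M : ℕ} {w : Fin M → K} (hw : ∀ i, w i ≠ 0) {ι : Type} (s : Finset ι)
    (n : ι → Fin M → ℤ) : PP w (∑ l ∈ s, n l) = ∏ l ∈ s, PP w (n l) := by
  classical
  induction s using Finset.induction_on with
  | empty => simp [PP_zero]
  | insert j s hj ih => rw [Finset.prod_insert hj, Finset.sum_insert hj, PP_add hw, ih]

end zp

section ufd

variable {N : ℕ} {k : Type} [Field k]

lemma le_zero_of_const {M : ℕ} (W : Fin M → MvPolynomial (Fin N) k)
    (hW : ∀ i, Irreducible (W i)) (hna : ∀ i j, i ≠ j → ¬ Associated (W i) (W j))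
    (n : Fin M → ℤ) (t : k) (ht : t ≠ 0)
    (h : ∏ i, W i ^ (n i).toNat = C t * ∏ i, W i ^ (-n i).toNat) (i : Fin M) : n i ≤ 0 := by
  by_contra hi
  push Not at hi
  have hp : Prime (W i) := (hW i).prime
  have h1 : W i ∣ ∏ i, W i ^ (n i).toNat := by
    refine Dvd.dvd.trans (dvd_pow_self (W i) (n := (n i).toNat) (by omega)) ?_
    exact Finset.dvd_prod_of_mem (fun i => W i ^ (n i).toNat) (Finset.mem_univ i)
  rw [h] at h1
  rcases hp.dvd_or_dvd h1 with h2 | h2
  · have h3 : IsUnit (C t : MvPolynomial (Fin N) k) := (isUnit_iff_ne_zero.2 ht).map C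
    exact (hW i).not_isUnit (isUnit_of_dvd_unit h2 h3)
  · obtain ⟨j, _, hj⟩ := hp.exists_mem_finset_dvd h2
    by_cases hij : i = j
    · subst hij
      have h4 : (-n i).toNat = 0 := by omega
      rw [h4, pow_zero] at hj
      exact (hW i).not_isUnit (isUnit_of_dvd_one hj)
    · have h5 := hp.dvd_of_dvd_pow hj
      exact hna i j hij ((hW i).associated_of_dvd (hW j) h5)

lemma eq_zero_of_const {M : ℕ} (W : Fin M → MvPolynomial (Fin N) k)
    (hW : ∀ i, Irreducible (W i)) (hna : ∀ i j, i ≠ j → ¬ Associated (W i) (W j))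
    (n : Fin M → ℤ) (t : k) (ht : t ≠ 0)
    (h : ∏ i, W i ^ (n i).toNat = C t * ∏ i, W i ^ (-n i).toNat) : n = 0 := by
  funext i
  refine le_antisymm (le_zero_of_const W hW hna n t ht h i) ?_
  have h1 := le_zero_of_const W hW hna (fun i => -n i) t⁻¹ (inv_ne_zero ht) (by
    simp only [neg_neg]
    rw [h, ← mul_assoc, ← C_mul, inv_mul_cancel₀ ht, C_1, one_mul]) i
  simp only [Pi.zero_apply]
  omega

end ufd

section main

variable {N : ℕ} {k : Type} [Field k]

lemma no_many (G : Tup N k) (hG : Function.Injective (aeval G : Po N k →ₐ[k] Po N k))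
    (hN : NoInv G) (S : Finset (Po N k)) (hS0 : ∀ y ∈ S, y ≠ 0) (M : ℕ)
    (hM : S.card + (N + 1) ≤ M) (W : Fin M → Po N k) (hW : ∀ i, Irreducible (W i))
    (hna : ∀ i j, i ≠ j → ¬ Associated (W i) (W j)) (c : Fin M → k) (hc : ∀ i, c i ≠ 0)
    (m : Fin M → Po N k → ℕ)
    (hGW : ∀ i, aeval G (W i) = W i * (C (c i) * ∏ y ∈ S, y ^ m i y)) : False := by
  classical
  obtain ⟨ι, hι⟩ : ∃ ι : Po N k →+* FractionRing (Po N k),
      ι = algebraMap (Po N k) (FractionRing (Po N k)) := ⟨_, rfl⟩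
  have hιi : Function.Injective ι := by
    rw [hι]
    exact IsFractionRing.injective (Po N k) (FractionRing (Po N k))
  have hι0 : ∀ a : Po N k, a ≠ 0 → ι a ≠ 0 := fun a ha h => ha (hιi (by rw [h, map_zero]))
  have hιC : ∀ t : k, ι (C t) = algebraMap k (FractionRing (Po N k)) t := by
    intro t
    rw [hι, ← MvPolynomial.algebraMap_eq, ← IsScalarTower.algebraMap_apply]
  -- the extension of the composition with `G`
  have hgi : Function.Injective ((IsScalarTower.toAlgHom k (Po N k) (FractionRing (Po N k))).comp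
      (aeval G : Po N k →ₐ[k] Po N k)) := by
    intro a b hab
    refine hG (IsFractionRing.injective (Po N k) (FractionRing (Po N k)) ?_)
    exact hab
  obtain ⟨γ, hγ⟩ : ∃ γ : FractionRing (Po N k) →ₐ[k] FractionRing (Po N k),
      ∀ a : Po N k, γ (ι a) = ι (aeval G a) := by
    refine ⟨IsFractionRing.liftAlgHom hgi, fun a => ?_⟩
    rw [hι]
    exact IsFractionRing.lift_algebraMap hgi a
  -- products
  have hw0 : ∀ i, ι (W i) ≠ 0 := fun i => hι0 _ (hW i).ne_zero
  obtain ⟨Φ, hΦ⟩ : ∃ Φ : (Fin M → ℤ) → FractionRing (Po N k), Φ = PP (fun i => ι (W i)) :=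
    ⟨_, rfl⟩
  obtain ⟨lam, hlam⟩ : ∃ lam : (Fin M → ℤ) → k, lam = PP c := ⟨_, rfl⟩
  obtain ⟨f, hf⟩ : ∃ f : (Fin M → ℤ) →ₗ[ℤ] (S → ℤ),
      f = Matrix.mulVecLin (Matrix.of fun (y : S) (i : Fin M) => (m i y : ℤ)) := ⟨_, rfl⟩
  have hf0 : ∀ n : Fin M → ℤ, f n = 0 → ∀ y ∈ S, ∑ i, (m i y : ℤ) * n i = 0 := by
    intro n hn y hy
    have h1 := congrFun hn ⟨y, hy⟩
    rw [hf] at h1
    exact h1
  have hγΦ : ∀ n : Fin M → ℤ, f n = 0 →
      γ (Φ n) = algebraMap k (FractionRing (Po N k)) (lam n) * Φ n := by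
    intro n hn
    have h1 : ∀ i, γ (ι (W i) ^ n i) = ι (W i) ^ n i *
        (algebraMap k (FractionRing (Po N k)) (c i ^ n i) *
          ∏ y ∈ S, ι y ^ ((m i y : ℤ) * n i)) := by
      intro i
      have h2 : ∏ y ∈ S, ι y ^ ((m i y : ℤ) * n i) = (∏ y ∈ S, ι (y ^ m i y)) ^ n i := by
        rw [← Finset.prod_zpow]
        refine Finset.prod_congr rfl fun y _ => ?_
        rw [map_pow, ← zpow_natCast, ← zpow_mul]
      rw [map_zpow₀, hγ, hGW, map_mul, mul_zpow, map_mul, mul_zpow, map_prod, hιC, h2,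
        map_zpow₀ (algebraMap k (FractionRing (Po N k)))]
    rw [hΦ, PP, map_prod]
    simp_rw [h1]
    rw [Finset.prod_mul_distrib, Finset.prod_mul_distrib, Finset.prod_comm]
    have h2 : ∏ y ∈ S, ∏ i, ι y ^ ((m i y : ℤ) * n i) = 1 := by
      refine Finset.prod_eq_one fun y hy => ?_
      rw [zpow_sum _ _ (hι0 y (hS0 y hy)), hf0 n hn y hy, zpow_zero]
    rw [h2, mul_one, mul_comm, hlam, PP, map_prod]
  -- the quotient of two polynomials
  have hab : ∀ n : Fin M → ℤ, ι (∏ i, W i ^ (n i).toNat) =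
      Φ n * ι (∏ i, W i ^ (-n i).toNat) := by
    intro n
    rw [hΦ, PP, map_prod, map_prod, ← Finset.prod_mul_distrib]
    refine Finset.prod_congr rfl fun i _ => ?_
    rw [map_pow, map_pow, ← zpow_natCast, ← zpow_natCast, ← zpow_add₀ (hw0 i)]
    congr 1
    omega
  have hprod0 : ∀ e : Fin M → ℕ, ∏ i, W i ^ e i ≠ 0 := fun e =>
    Finset.prod_ne_zero_iff.2 fun i _ => pow_ne_zero _ (hW i).ne_zero
  have hinj : ∀ n : Fin M → ℤ, f n = 0 → lam n = 1 → n = 0 := by
    intro n hn hl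
    have h1 : γ (Φ n) = Φ n := by rw [hγΦ n hn, hl, map_one, one_mul]
    have h2 := hab n
    obtain ⟨a, ha⟩ : ∃ a, a = ∏ i, W i ^ (n i).toNat := ⟨_, rfl⟩
    obtain ⟨b, hb⟩ : ∃ b, b = ∏ i, W i ^ (-n i).toNat := ⟨_, rfl⟩
    rw [← ha, ← hb] at h2
    have h3 : ι (aeval G a) = Φ n * ι (aeval G b) := by
      rw [← hγ, h2, map_mul, h1, hγ]
    have h4 : aeval G a * b = aeval G b * a := by
      apply hιi
      rw [map_mul, map_mul, h3, h2]
      ring
    have hb0 : b ≠ 0 := by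
      rw [hb]
      exact hprod0 _
    have ha0 : a ≠ 0 := by
      rw [ha]
      exact hprod0 _
    have h5 : ∃ t : k, a = C t * b := by
      by_contra hcon
      push Not at hcon
      exact hN ⟨a, b, hb0, hcon, h4⟩
    obtain ⟨t, ht⟩ := h5
    have ht0 : t ≠ 0 := by
      rintro rfl
      rw [C_0, zero_mul] at ht
      exact ha0 ht
    exact eq_zero_of_const W hW hna n t ht0 (by rw [← ha, ← hb]; exact ht)
  obtain ⟨b, hbli, hb0⟩ := exists_ker M (N + 1) (by rw [Fintype.card_coe]; exact hM) f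
  -- exponents
  obtain ⟨nn, hnn⟩ : ∃ nn : (Fin (N + 1) →₀ ℕ) → Fin M → ℤ,
      nn = fun α => ∑ l, (α l : ℤ) • b l := ⟨_, rfl⟩
  have hfnn : ∀ α, f (nn α) = 0 := by
    intro α
    rw [hnn, map_sum]
    refine Finset.sum_eq_zero fun l _ => ?_
    rw [map_smul, hb0, smul_zero]
  have hnninj : Function.Injective nn := by
    intro α β hαβ
    have h1 : ∑ l, ((α l : ℤ) - (β l : ℤ)) • b l = 0 := by
      simp_rw [sub_smul]
      rw [Finset.sum_sub_distrib, sub_eq_zero]
      rw [hnn] at hαβ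
      exact hαβ
    have h2 := Fintype.linearIndependent_iff.1 hbli _ h1
    ext l
    have h3 := h2 l
    omega
  have hlam0 : ∀ n, lam n ≠ 0 := by
    intro n
    rw [hlam]
    exact PP_ne hc n
  have hΦ0 : ∀ n, Φ n ≠ 0 := by
    intro n
    rw [hΦ]
    exact PP_ne hw0 n
  have hμ : Function.Injective fun α => lam (nn α) := by
    intro α β hαβ
    apply hnninj
    have h1 : lam (nn α - nn β) = 1 := by
      have h2 : lam (nn α) = lam (nn β) := hαβ
      rw [hlam] at h2 ⊢
      rw [PP_sub hc, h2, div_self (PP_ne hc _)]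
    have h3 : f (nn α - nn β) = 0 := by rw [map_sub, hfnn, hfnn, sub_zero]
    exact sub_eq_zero.1 (hinj _ h3 h1)
  have hli : LinearIndependent k fun α => Φ (nn α) := by
    refine Module.End.eigenvectors_linearIndependent' γ.toLinearMap (fun α => lam (nn α)) hμ
      (fun α => Φ (nn α)) fun α => ⟨?_, hΦ0 _⟩
    rw [Module.End.mem_eigenspace_iff, Algebra.smul_def]
    exact hγΦ _ (hfnn α)
  have hai : AlgebraicIndependent k fun l => Φ (b l) := by
    rw [algebraicIndependent_iff]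
    intro P hP
    rw [aeval_def, eval₂_eq'] at hP
    have h1 : ∀ α : Fin (N + 1) →₀ ℕ, ∏ l, Φ (b l) ^ α l = Φ (nn α) := by
      intro α
      rw [hnn, hΦ, PP_sum hw0]
      exact Finset.prod_congr rfl fun l _ => (PP_nsmul _ _ _).symm
    simp_rw [h1, ← Algebra.smul_def] at hP
    have h2 := linearIndependent_iff'.1 hli P.support (fun α => coeff α P) hP
    ext α
    rw [coeff_zero]
    by_contra hne
    exact hne (h2 α (mem_support_iff.2 hne))
  have h1 := hai.lift_cardinalMk_le_trdeg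
  rw [trdeg_frac] at h1
  simp only [Cardinal.mk_fintype, Fintype.card_fin, Cardinal.lift_natCast] at h1
  have h2 : N + 1 ≤ N := by exact_mod_cast h1
  omega

theorem pf_CAN : T_CAN := by
  classical
  intro N k _ G B₀ hG hN hB0
  by_contra hcon
  push Not at hcon
  obtain ⟨S, hS⟩ : ∃ S : Finset (Po N k), S = (UniqueFactorizationMonoid.factors B₀).toFinset :=
    ⟨_, rfl⟩
  have hS1 : ∀ Y : Po N k, Irreducible Y → Y ∣ B₀ → ∃ y ∈ S, Associated Y y := by
    intro Y hY hd
    obtain ⟨q, hq, hq'⟩ := UniqueFactorizationMonoid.exists_mem_factors_of_dvd hB0 hY hd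
    exact ⟨q, by rw [hS, Multiset.mem_toFinset]; exact hq, hq'⟩
  have hS0 : ∀ y ∈ S, y ≠ 0 := by
    intro y hy
    rw [hS, Multiset.mem_toFinset] at hy
    exact (UniqueFactorizationMonoid.irreducible_of_factor y hy).ne_zero
  have hseq : ∀ M : ℕ, ∃ W : Fin M → Po N k, (∀ i, Irreducible (W i) ∧ ∃ Z : Po N k,
      aeval G (W i) = W i * Z ∧ ∀ Y : Po N k, Irreducible Y → Y ∣ Z → Y ∣ B₀) ∧
      ∀ i j, i ≠ j → ¬ Associated (W i) (W j) := by
    intro M
    induction M with
    | zero => exact ⟨fun i => i.elim0, fun i => i.elim0, fun i => i.elim0⟩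
    | succ M ih =>
      obtain ⟨W, hW, hna⟩ := ih
      have hb : ∏ i, W i ≠ 0 := Finset.prod_ne_zero_iff.2 fun i _ => (hW i).1.ne_zero
      obtain ⟨W', Z', h1, h2, h3, h4⟩ := hcon _ hb
      have h5 : ∀ i, ¬ Associated W' (W i) := fun i h =>
        h4 (h.dvd.trans (Finset.dvd_prod_of_mem W (Finset.mem_univ i)))
      refine ⟨Fin.cons W' W, ?_, ?_⟩
      · intro i
        refine Fin.cases ?_ (fun i => ?_) i
        · exact ⟨h1, Z', h2, h3⟩
        · exact hW i
      · intro i j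
        refine Fin.cases ?_ (fun i => ?_) i
        · refine Fin.cases ?_ (fun j => ?_) j
          · exact fun h => absurd rfl h
          · intro _
            exact h5 j
        · refine Fin.cases ?_ (fun j => ?_) j
          · intro _ h
            exact h5 i h.symm
          · intro hij
            exact hna i j fun h => hij (by rw [h])
  obtain ⟨W, hW, hna⟩ := hseq (S.card + (N + 1))
  choose hWi Z hGZ hZ using hW
  have hZ0 : ∀ i, Z i ≠ 0 := by
    intro i h
    have h1 := hGZ i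
    rw [h, mul_zero] at h1
    exact (hWi i).ne_zero (hG (by rw [h1, map_zero]))
  choose m hm using fun i => factor_form S B₀ hS1 (Z i) (hZ0 i) (hZ i)
  have hu : ∀ i, ∃ t : k, t ≠ 0 ∧ Z i = C t * ∏ y ∈ S, y ^ m i y := by
    intro i
    obtain ⟨u, hu⟩ := (hm i).symm
    have h1 : IsUnit (u : Po N k) := u.isUnit
    rw [isUnit_iff_eq_C_of_isReduced] at h1
    obtain ⟨t, ht, htu⟩ := h1
    exact ⟨t, ht.ne_zero, by rw [← hu, htu, mul_comm]⟩
  choose c hc0 hc using hu
  exact no_many G hG hN S hS0 _ le_rfl W hWi hna c hc0 m fun i => by rw [hGZ i, hc i]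

end main

end Pool.Agent.H80.HIT
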